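import Pool.Agent.N594.CT.Stm

/-!
# Project CT: blow-ups
-/

set_option autoImplicit false

open Finset
open scoped Classical

namespace Pool.Agent.N75.CT.CLN

open Pool.Agent.N594.CT

/-- the inverse image of a `t`-graph -/
def pull (t : ℕ) {V W : Type} (f : W → V) (H : Finset V → Prop) : Finset W → Prop :=
  fun Z => Z.card = t ∧ H (Z.image f)

theorem pull_iff {t : ℕ} {V W ι : Type} (f : W → V) {H : Finset V → Prop} (hU : Unif t H)
    (σ : ι → W) (e : Finset ι) (he : e.card = t) :
    pull t f H (e.image σ) ↔ H (e.image fun i => f (σ i)) := by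
  unfold pull
  have h1 : (e.image σ).image f = e.image fun i => f (σ i) := by
    rw [Finset.image_image]
    rfl
  rw [h1]
  constructor
  · exact fun h => h.2
  · intro h
    refine ⟨le_antisymm ?_ ?_, h⟩
    · rw [← he]
      exact Finset.card_image_le
    · have h2 := hU _ h
      have h3 : ((e.image σ).image f).card ≤ (e.image σ).card := Finset.card_image_le
      rw [h1, h2] at h3
      exact h3

theorem pull_cls {t k q : ℕ} {V W : Type} (f : W → V) {H : Finset V → Prop} (hU : Unif t H)
    (h : Cls t k q H) : Cls t k q (pull t f H) := by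
  intro σ
  obtain ⟨J, hJ, hI⟩ := h fun i => f (σ i)
  refine ⟨J, hJ, fun e he het => ?_⟩
  rw [pull_iff f hU σ e het]
  exact hI e he het

theorem pull_WC {t k r : ℕ} {V W : Type} (f : W → V) {H : Finset V → Prop} (hU : Unif t H)
    (K : Fin k × Fin r → W) : WC t k r (pull t f H) K ↔ WC t k r H fun i => f (K i) := by
  unfold WC
  refine forall_congr' fun e => forall_congr' fun he => forall_congr' fun _ => ?_
  exact pull_iff f hU K e he

theorem count {V α : Type} [Fintype V] [Fintype α] [DecidableEq α] (N : ℕ) (P : (α → V) → Prop) :
    (univ.filter fun x : α → V × Fin N => P fun a => (x a).1).card =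
      (univ.filter P).card * N ^ Fintype.card α := by
  have h1 : (univ.filter fun x : α → V × Fin N => P fun a => (x a).1).card =
      ((univ.filter P) ×ˢ (univ : Finset (α → Fin N))).card := by
    refine Finset.card_nbij' (fun x => (fun a => (x a).1, fun a => (x a).2))
      (fun p a => (p.1 a, p.2 a)) ?_ ?_ ?_ ?_
    · intro x hx
      have h2 := (Finset.mem_filter.1 hx).2
      exact Finset.mem_product.2 ⟨Finset.mem_filter.2 ⟨Finset.mem_univ _, h2⟩, Finset.mem_univ _⟩
    · intro p hp
      have h2 := (Finset.mem_filter.1 (Finset.mem_product.1 hp).1).2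
      exact Finset.mem_filter.2 ⟨Finset.mem_univ _, h2⟩
    · intro x _
      rfl
    · intro p _
      rfl
  rw [h1, Finset.card_product, Finset.card_univ, Fintype.card_fun, Fintype.card_fin]

theorem main : Pool.Agent.N594.CT.S_CLN := by
  intro V _ _ H t k q N hN ht hU hC
  refine ⟨pull t (Prod.fst : V × Fin N → V) H, fun Z hZ => hZ.1, pull_cls _ hU hC, ?_, fun r => ?_⟩
  · have h1 : E t (pull t (Prod.fst : V × Fin N → V) H) = E t H * N ^ t := by
      have h2 : E t (pull t (Prod.fst : V × Fin N → V) H) =
          (univ.filter fun x : Fin t → V × Fin N =>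
            (fun y : Fin t → V => H (univ.image y)) fun a => (x a).1).card := by
        unfold E
        congr 1
        refine Finset.filter_congr fun x _ => ?_
        exact pull_iff Prod.fst hU x univ (by rw [Finset.card_univ, Fintype.card_fin])
      have h5 := h2.trans (count N (fun y : Fin t → V => H (univ.image y)))
      rw [h5, Fintype.card_fin]
      rfl
    unfold den
    rw [h1, Fintype.card_prod, Fintype.card_fin]
    push_cast
    have h3 : (N : ℝ) ≠ 0 := by
      have : 0 < N := hN
      positivity
    have h4 : (Fintype.card V : ℝ) ≠ 0 := by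
      have : 0 < Fintype.card V := Fintype.card_pos
      positivity
    rw [mul_pow]
    field_simp
  · unfold pw
    have h2 : (univ.filter fun K : Fin k × Fin r → V × Fin N =>
        WC t k r (pull t (Prod.fst : V × Fin N → V) H) K).card =
          (univ.filter fun x : Fin k × Fin r → V × Fin N =>
            (fun y : Fin k × Fin r → V => WC t k r H y) fun a => (x a).1).card := by
      congr 1
      refine Finset.filter_congr fun x _ => ?_
      exact pull_WC Prod.fst hU x
    have h5 := h2.trans (count N (fun y : Fin k × Fin r → V => WC t k r H y))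
    rw [h5, Fintype.card_prod, Fintype.card_prod, Fintype.card_fin, Fintype.card_fin,
      Fintype.card_fin]
    push_cast
    have h3 : (N : ℝ) ≠ 0 := by
      have : 0 < N := hN
      positivity
    have h4 : (Fintype.card V : ℝ) ≠ 0 := by
      have : 0 < Fintype.card V := Fintype.card_pos
      positivity
    rw [mul_pow]
    field_simp

end Pool.Agent.N75.CT.CLN
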